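import Pool.Agent.Helper4.It.Goals
import Pool.Agent.Helper60.Comp.G9

/-!
# Packet IT C2 (MP_aa7fc1_ag, helper4): the expansion of the twisted zeta functions
-/

namespace Mono

namespace It

open Finset Filter Topology Mono.Comp

namespace C2

/-- The constant of a stratum. -/
noncomputable def aQ (t : QStratum) : ℝ := (t.1 : ℝ) * (t.2.map (fun q => (q.1 : ℝ)⁻¹)).prod

/-- The multiset of a stratum. -/
noncomputable def mQ (t : QStratum) : Multiset ℝ :=
  ((t.2.map (fun q => (q.2 : ℝ) / (q.1 : ℝ)) : List ℝ) : Multiset ℝ)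

open Classical in
/-- The contribution of a stratum to `coefQ`. -/
noncomputable def cQ (red : Multiset ℝ → (ℝ × ℕ →₀ ℝ)) (t : QStratum) (e : ℕ) : ℝ × ℕ →₀ ℝ :=
  if ∀ q ∈ t.2, e ∣ q.1 then
    ((t.1 : ℝ) * (t.2.map (fun q => (q.1 : ℝ)⁻¹)).prod) •
      red ((t.2.map (fun q => (q.2 : ℝ) / (q.1 : ℝ)) : List ℝ) : Multiset ℝ) else 0

theorem coefQ_eq (red : Multiset ℝ → (ℝ × ℕ →₀ ℝ)) (g : List QStratum) (e : ℕ) :
    coefQ red g e = ∑ l : Fin g.length, cQ red (g.get l) e := by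
  have h := Fin.sum_univ_fun_getElem g (fun t => cQ red t e)
  exact h.symm

theorem fixQ {k : ℕ} (red : Multiset ℝ → (ℝ × ℕ →₀ ℝ)) (t : Fin k → QStratum) (B : ℕ)
    (D : Fin k → ℕ) (hD : ∀ i, 0 < D i) (hB : ∀ i, D i ≤ B)
    (hdiv : ∀ i e, e ∣ D i ↔ ∀ q ∈ (t i).2, e ∣ q.1)
    (H : (Fin k → ℕ) → (Fin k → ℝ × ℕ) → ℝ) :
    ∑ e ∈ Fintype.piFinset (fun _ : Fin k => Icc 1 B),
      ∑ x ∈ Fintype.piFinset (fun i => (cQ red (t i) (e i)).support),
        (∏ i, cQ red (t i) (e i) (x i)) * H e x =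
    (∏ i, aQ (t i)) * ∑ e ∈ Fintype.piFinset (fun i => (D i).divisors),
      ∑ x ∈ Fintype.piFinset (fun i => (red (mQ (t i))).support),
        (∏ i, red (mQ (t i)) (x i)) * H e x := by
  classical
  have h1 : ∀ e ∈ Fintype.piFinset (fun i => (D i).divisors),
      (∏ i, aQ (t i)) * ∑ x ∈ Fintype.piFinset (fun i => (red (mQ (t i))).support),
        (∏ i, red (mQ (t i)) (x i)) * H e x =
      ∑ x ∈ Fintype.piFinset (fun i => (cQ red (t i) (e i)).support),
        (∏ i, cQ red (t i) (e i) (x i)) * H e x := by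
    intro e he
    rw [Fintype.mem_piFinset] at he
    have h2 : ∀ i, cQ red (t i) (e i) = aQ (t i) • red (mQ (t i)) := by
      intro i
      have h3 : ∀ q ∈ (t i).2, e i ∣ q.1 := (hdiv i (e i)).1 (Nat.dvd_of_mem_divisors (he i))
      rw [cQ, if_pos h3]
      rfl
    rw [G9.sum_pi_support (fun i => cQ red (t i) (e i)) (fun i => (red (mQ (t i))).support)
      (fun i => by rw [h2 i]; exact Finsupp.support_smul), Finset.mul_sum]
    refine Finset.sum_congr rfl fun x _ => ?_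
    rw [← mul_assoc, ← Finset.prod_mul_distrib]
    congr 1
    refine Finset.prod_congr rfl fun i _ => ?_
    rw [h2 i, Finsupp.smul_apply, smul_eq_mul]
  rw [Finset.mul_sum, Finset.sum_congr rfl h1]
  symm
  refine Finset.sum_subset (Fintype.piFinset_subset _ _ fun i => ?_) fun e he hne => ?_
  · intro a ha
    rw [Finset.mem_Icc]
    exact ⟨Nat.pos_of_mem_divisors ha, (Nat.divisor_le ha).trans (hB i)⟩
  · rw [Fintype.mem_piFinset] at he hne
    push Not at hne
    obtain ⟨i, hi⟩ := hne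
    have h3 : ¬ ∀ q ∈ (t i).2, e i ∣ q.1 := by
      rw [← hdiv i]
      intro h4
      exact hi (Nat.mem_divisors.2 ⟨h4, (hD i).ne'⟩)
    refine Finset.sum_eq_zero fun x _ => ?_
    have h5 : cQ red (t i) (e i) (x i) = 0 := by
      rw [cQ, if_neg h3]
      rfl
    have h6 : ∏ i, cQ red (t i) (e i) (x i) = 0 := Finset.prod_eq_zero (Finset.mem_univ i) h5
    rw [h6, zero_mul]

theorem αT_pos (e : ℕ) {s : ℝ} (hs : 0 < s) : 0 < αT e s := by
  unfold αT
  split_ifs
  · positivity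
  · positivity

end C2

open C2 G9 Mono.H3h in
/-- C2. -/
theorem collectT (h1 : ZEvalT) (h2 : Moebius) (h2' : MoebiusT) (h3 : RedMulti) : CollectT := by
  intro red hred k A Z Φ hk hTri g hg T hT e₀ he₀ F hF
  have hMb := h2'.2
  have hMc := h2.2.2
  have hA : ∀ v ∈ A, ∀ i, 0 ≤ v i := hTri.2.1
  set DI : ((i : Fin k) → Fin (g i).length) → Fin k → List (ℕ × ℕ) :=
    fun I i => ((g i).get (I i)).2 with hDI
  have hne : ∀ I i, DI I i ≠ [] := fun I i => (hg i _ (List.get_mem _ _)).1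
  have hpos : ∀ I i, ∀ q ∈ DI I i, 0 < q.1 ∧ 0 < q.2 := fun I i => (hg i _ (List.get_mem _ _)).2
  set dI : ((i : Fin k) → Fin (g i).length) → Fin k → ℕ :=
    fun I => blkGcd (blkD (DI I)) (ND (DI I)) with hdI
  set χ : ((i : Fin k) → Fin (g i).length) → ℝ :=
    fun I => ∏ i, (((g i).get (I i)).1 : ℝ) with hχ
  set B : ℕ := ∑ I, ∑ i, dI I i with hB
  refine ⟨∑ I, χ I * ∏ j, (nuD (DI I) j : ℝ)⁻¹, B, fun s hs => ?_⟩
  have hNpos : ∀ I j, 0 < ND (DI I) j := fun I j => (hpos I _ _ (List.get_mem _ _)).1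
  have hnpos : ∀ I j, 0 < nuD (DI I) j := fun I j => (hpos I _ _ (List.get_mem _ _)).2
  have hα : 0 < αT e₀ s := αT_pos e₀ hs
  have hgood : Good (s : ℂ) (ZTs A g T e₀)
      ((∑ I, χ I * ZrealT e₀ (nuR (nuD (DI I))) (chartA A (DI I)) (T I) s : ℝ) : ℂ) := by
    unfold ZTs
    rw [Complex.ofReal_sum]
    refine good_sum _ _ _ fun I _ => ?_
    rw [Complex.ofReal_mul]
    refine Good.mul ?_ ?_
    · refine (good_C _).congr ?_
      rw [hχ]
      push_cast
      rfl
    · refine h1 _ _ _ _ _ (hnpos I) ?_ s hs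
      intro v hv j
      obtain ⟨u, hu, rfl⟩ := Finset.mem_image.1 hv
      exact mul_nonneg (by positivity) (hA u hu _)
  refine ⟨hgood.1, hgood.2.trans ?_⟩
  congr 1
  rw [eq_div_iff hα.ne', Finset.sum_mul]
  -- the value for one chart
  have hI : ∀ I, χ I * ZrealT e₀ (nuR (nuD (DI I))) (chartA A (DI I)) (T I) s * αT e₀ s =
      βT e₀ * (χ I * ∏ j, (nuD (DI I) j : ℝ)⁻¹) -
        γT e₀ s * ∑ e ∈ Fintype.piFinset (fun _ : Fin k => Icc 1 B),
          ∑ x ∈ Fintype.piFinset (fun i => (cQ red ((g i).get (I i)) (e i)).support),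
            (∏ i, cQ red ((g i).get (I i)) (e i) (x i)) * FE (F s) e (repl x) := by
    intro I
    have hNne : ∀ j, (ND (DI I) j : ℝ) ≠ 0 := fun j => by
      have := hNpos I j
      positivity
    have hdpos : ∀ i, 0 < dI I i := fun i => gcd_pos (DI I) i (hne I i) fun q hq => (hpos I i q hq).1
    have hw : (fun j => (ND (DI I) j : ℝ) * ((nuD (DI I) j : ℝ) / (ND (DI I) j : ℝ))) =
        nuR (nuD (DI I)) := by
      funext j
      rw [mul_div_cancel₀ _ (hNne j)]
      rfl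
    have hρ : ∀ j, 0 < (nuD (DI I) j : ℝ) / (ND (DI I) j : ℝ) := fun j => by
      have := hNpos I j
      have := hnpos I j
      positivity
    have hkey := (hF s hs (dI I) hdpos).2 (dimD (DI I)) (blkD (DI I)) (ND (DI I))
      (blk_surj (DI I) (hne I)) (hNpos I) (fun i => rfl) (T I) (hT I)
      (fun j => (nuD (DI I) j : ℝ) / (ND (DI I) j : ℝ)) hρ
    rw [hw] at hkey
    have hw' : ∀ j, (ND (DI I) j : ℝ) * ((nuD (DI I) j : ℝ) / (ND (DI I) j : ℝ)) =
        nuD (DI I) j := fun j => congrFun hw j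
    simp_rw [hw'] at hkey
    have hms : ms (blkD (DI I)) (fun j => (nuD (DI I) j : ℝ) / (ND (DI I) j : ℝ)) =
        fun i => mQ ((g i).get (I i)) := by
      funext i
      exact ms_chart (DI I) (fun q => (q.2 : ℝ) / (q.1 : ℝ)) i
    have hN : ∏ j, (ND (DI I) j : ℝ)⁻¹ =
        ∏ i, (((g i).get (I i)).2.map (fun q => (q.1 : ℝ)⁻¹)).prod :=
      prod_chart' (DI I) (fun q => (q.1 : ℝ)⁻¹)
    have hFE : F s (dI I) (fun i => mQ ((g i).get (I i))) =
        ∑ e ∈ Fintype.piFinset (fun i => (dI I i).divisors),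
          ∑ x ∈ Fintype.piFinset (fun i => (red (mQ ((g i).get (I i)))).support),
            (∏ i, red (mQ ((g i).get (I i))) (x i)) * FE (F s) e (repl x) := by
      rw [hMc k (F s) (dI I) hdpos]
      refine Finset.sum_congr rfl fun e he => ?_
      rw [Fintype.mem_piFinset] at he
      refine h3 red hred k Φ (WR Φ (vTE e₀ e) Z s) (FE (F s) e)
        (hMb k e₀ Z Φ s (F s) (fun D hD => (hF s hs D hD).1) e
          fun i => Nat.pos_of_mem_divisors (he i)) _ fun i => ⟨?_, ?_⟩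
      · intro h0
        have h4 : (((g i).get (I i)).2.map (fun q => (q.2 : ℝ) / (q.1 : ℝ))) = [] :=
          (Multiset.coe_eq_zero _).1 h0
        exact hne I i (List.map_eq_nil_iff.1 h4)
      · intro y hy
        obtain ⟨q, hq, rfl⟩ := List.mem_map.1 (Multiset.mem_coe.1 hy)
        have h5 := hpos I i q hq
        have h6 : (0 : ℝ) < q.1 := by exact_mod_cast h5.1
        have h7 : (0 : ℝ) < q.2 := by exact_mod_cast h5.2
        positivity
    rw [hms, hFE] at hkey
    replace hkey : αT e₀ s * ZrealT e₀ (nuR (nuD (DI I))) (chartA A (DI I)) (T I) s = _ := hkey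
    rw [fixQ red (fun i => (g i).get (I i)) B (dI I) hdpos ?_ (fun i e => dvd_gcd (DI I) i e)
      (fun e x => FE (F s) e (repl x))]
    · have h8 : ∏ i, aQ ((g i).get (I i)) = χ I * ∏ j, (ND (DI I) j : ℝ)⁻¹ := by
        rw [hN, hχ, ← Finset.prod_mul_distrib]
        rfl
      rw [h8, mul_assoc (χ I), mul_comm _ (αT e₀ s), hkey]
      ring
    · intro i
      calc dI I i ≤ ∑ i, dI I i := Finset.single_le_sum (fun _ _ => Nat.zero_le _)
            (Finset.mem_univ i)
        _ ≤ B := Finset.single_le_sum (f := fun I => ∑ i, dI I i) (fun _ _ => Nat.zero_le _)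
            (Finset.mem_univ I)
  rw [Finset.sum_congr rfl fun I _ => hI I, Finset.sum_sub_distrib, ← Finset.mul_sum,
    ← Finset.mul_sum, Finset.sum_comm]
  congr 2
  refine Finset.sum_congr rfl fun e _ => ?_
  simp_rw [coefQ_eq]
  exact (expand (fun i => (g i).length) (fun i l => cQ red ((g i).get l) (e i))
    (fun x => FE (F s) e (repl x))).symm

end It

end Mono
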