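import Pool.Agent.Helper4.It.Goals
import Pool.Agent.Helper57.Comp.K3

/-!
# Packet IT K3 (MP_aa7fc1_ag, helper4): the multiplicity formula with integral nodes
-/

namespace Mono

namespace It

open Finset Mono.Comp

namespace K3

variable {n : ℕ}

lemma card_cs_eq {τ : Finset (Fin n → ℤ)} (hτ : ∀ u ∈ τ, ∃ i, u = Pi.single i 1) :
    τ.card = (cs τ).card := by
  classical
  have h1 : τ = (cs τ).image (fun i => (Pi.single i 1 : Fin n → ℤ)) := by
    ext u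
    rw [mem_image]
    constructor
    · intro hu
      obtain ⟨i, rfl⟩ := hτ u hu
      refine ⟨i, mem_filter.2 ⟨mem_univ _, _, hu, ?_⟩, rfl⟩
      rw [Pi.single_eq_same]
      exact one_ne_zero
    · rintro ⟨i, hi, rfl⟩
      obtain ⟨v, hv, hvi⟩ := (mem_filter.1 hi).2
      obtain ⟨j, rfl⟩ := hτ v hv
      have hij : i = j := by
        by_contra h
        apply hvi
        rw [Pi.single_eq_of_ne h]
      rw [hij]
      exact hv
  conv_lhs => rw [h1]
  apply card_image_of_injective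
  intro i j hij
  by_contra h
  have h2 := congrFun hij i
  simp only [Pi.single_eq_same] at h2
  rw [Pi.single_eq_of_ne h] at h2
  exact one_ne_zero h2

lemma regroup (hS : SpanT) (Φ : Fan n) (f : Finset (Fin n → ℤ) → ℤ) :
    ∑ T : Finset (Fin n), ∑ τ ∈ Φ.mxT T, f τ =
      ∑ τ ∈ Φ.faces.filter (fun τ => τ.card = (cs τ).card), f τ := by
  classical
  rw [Finset.sum_sigma']
  apply Finset.sum_bij (fun p _ => p.2)
  · rintro ⟨T, τ⟩ hp
    simp only [mem_sigma, mem_univ, true_and] at hp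
    have hcs := D2.cs_eq_of_mxT hS Φ hp
    refine mem_filter.2 ⟨(mem_filter.1 hp).1, ?_⟩
    rw [hcs]
    exact (mem_filter.1 hp).2.1
  · rintro ⟨T, τ⟩ hp ⟨T', τ'⟩ hp' heq
    simp only at heq
    subst heq
    simp only [mem_sigma, mem_univ, true_and] at hp hp'
    have h1 := D2.cs_eq_of_mxT hS Φ hp
    have h2 := D2.cs_eq_of_mxT hS Φ hp'
    rw [← h1, ← h2]
  · intro τ hτ
    obtain ⟨h1, h2⟩ := mem_filter.1 hτ
    refine ⟨⟨cs τ, τ⟩, ?_, rfl⟩
    simp only [mem_sigma, mem_univ, true_and]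
    exact D2.mem_mxT_cs Φ h1 h2
  · rintro ⟨T, τ⟩ _
    rfl

open Classical in
lemma box_sumI (h1 : BoxCountR) (h2 : BoxCountZ) (Φ : Fan n) {Z τ : Finset (Fin n → ℤ)}
    {V : Finset (Fin n)} {w : Fin n → ℝ} (hZ : ∀ z ∈ Z, ∃ k : Fin n, z = Pi.single k 1)
    (hτ : τ ∈ Φ.faces) (hc : τ.card = (cs τ).card) (hV : V ⊆ cs τ)
    (hw : ∀ i, i ∉ V → w i = 1) (a : ℝ) :
    (((∑ G ∈ τ.powerset, lstarR Z w a G : ℕ) : ℤ)) =
      (if ¬ τ ⊆ Z ∧ CondR Z V w a τ then (volZ Z τ : ℤ) else 0) +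
        (if τ ⊆ Z ∧ ∃ z : ℤ, a = z then 1 else 0) := by
  by_cases hτZ : τ ⊆ Z
  · rw [if_neg (fun h => h.1 hτZ), zero_add,
      h2 n Z τ V w (fun u hu => hZ u (hτZ hu)) hτZ hV hw a]
    by_cases ha : ∃ z : ℤ, a = z
    · rw [if_pos ha, if_pos ⟨hτZ, ha⟩, Nat.cast_one]
    · rw [if_neg ha, if_neg (fun h => ha h.2), Nat.cast_zero]
  · rw [h1 n Z τ V w hτZ ((Φ.mem_faces.1 hτ).indep) hc hV hw a]
    rw [if_neg (fun h : τ ⊆ Z ∧ ∃ z : ℤ, a = z => hτZ h.1), add_zero]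
    by_cases hd : CondR Z V w a τ
    · rw [if_pos hd, if_pos ⟨hτZ, hd⟩]
    · rw [if_neg hd, if_neg (fun h => hd h.2), Nat.cast_zero]

end K3

open K3 in
/-- K3. -/
theorem multFormulaI (h1 : BoxCountR) (h2 : BoxCountZ) (h3 : SpanT) : MultFormulaI := by
  intro n Φ Z S V w hN _ hw a
  classical
  have hZ : ∀ z ∈ Z, ∃ k : Fin n, z = Pi.single k 1 := hN.2.1
  -- the right hand side
  have e1 : ∀ G ∈ Φ.faces, (lstarR Z w a G : ℤ) * ellV Φ V (G ∪ S) =
      ∑ T : Finset (Fin n), ∑ τ ∈ Φ.mxT T, if V ⊆ cs τ ∧ S ⊆ τ ∧ G ⊆ τ then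
        (-1) ^ (n - τ.card) * (lstarR Z w a G : ℤ) else 0 := by
    intro G _
    unfold ellV
    rw [Finset.mul_sum, Finset.sum_filter]
    apply Finset.sum_congr rfl
    intro T _
    by_cases hVT : V ⊆ T
    swap
    · rw [if_neg (fun h => hVT h.2)]
      symm
      apply Finset.sum_eq_zero
      intro τ hτ
      rw [if_neg (fun h => hVT ((D2.cs_eq_of_mxT h3 Φ hτ) ▸ h.1))]
    have e2 : ∀ τ ∈ Φ.mxT T, τ.card = T.card := fun τ hτ => (mem_filter.1 hτ).2.1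
    have e3 : (∑ τ ∈ Φ.mxT T, if V ⊆ cs τ ∧ S ⊆ τ ∧ G ⊆ τ then
        (-1) ^ (n - τ.card) * (lstarR Z w a G : ℤ) else 0) =
        (lstarR Z w a G : ℤ) * ((-1) ^ (n - T.card) *
          (((Φ.mxT T).filter (fun τ => G ∪ S ⊆ τ)).card : ℤ)) := by
      rw [Finset.card_filter, Nat.cast_sum, Finset.mul_sum, Finset.mul_sum]
      apply Finset.sum_congr rfl
      intro τ hτ
      rw [e2 τ hτ, D2.cs_eq_of_mxT h3 Φ hτ]
      by_cases hc : S ⊆ τ ∧ G ⊆ τ
      · rw [if_pos ⟨hVT, hc⟩, if_pos (Finset.union_subset hc.2 hc.1)]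
        push_cast
        ring
      · rw [if_neg (fun h => hc h.2), if_neg]
        · simp
        · intro hu
          exact hc ⟨Finset.subset_union_right.trans hu, Finset.subset_union_left.trans hu⟩
    rw [e3]
    by_cases hT : cs (G ∪ S) ⊆ T
    · rw [if_pos ⟨hT, hVT⟩]
    · rw [if_neg (fun h => hT h.1)]
      have : (Φ.mxT T).filter (fun τ => G ∪ S ⊆ τ) = ∅ := by
        rw [Finset.filter_eq_empty_iff]
        intro τ hτ hsub
        apply hT
        intro i hi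
        obtain ⟨u, hu, hui⟩ := (mem_filter.1 hi).2
        by_contra hiT
        exact hui ((mem_filter.1 hτ).2.2 u (hsub hu) i hiT)
      rw [this]
      simp
  rw [Finset.sum_congr rfl e1,
    Finset.sum_congr rfl (fun G _ => regroup h3 Φ (fun τ => if V ⊆ cs τ ∧ S ⊆ τ ∧ G ⊆ τ then
        (-1) ^ (n - τ.card) * (lstarR Z w a G : ℤ) else 0)), Finset.sum_comm]
  -- the inner sum
  have e4 : ∀ τ ∈ Φ.faces.filter (fun τ => τ.card = (cs τ).card),
      (∑ G ∈ Φ.faces, if V ⊆ cs τ ∧ S ⊆ τ ∧ G ⊆ τ then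
        (-1) ^ (n - τ.card) * (lstarR Z w a G : ℤ) else 0) =
      (if V ⊆ cs τ ∧ S ⊆ τ ∧ ¬ τ ⊆ Z ∧ CondR Z V w a τ then
        (-1) ^ (n - τ.card) * (volZ Z τ : ℤ) else 0) +
      (if V ⊆ cs τ ∧ S ⊆ τ ∧ τ ⊆ Z ∧ ∃ z : ℤ, a = z then
        (-1) ^ (n - τ.card) else 0) := by
    intro τ hτ
    obtain ⟨hτf, hcard⟩ := mem_filter.1 hτ
    by_cases hSτ : V ⊆ cs τ ∧ S ⊆ τ
    · have e5 : (∑ G ∈ Φ.faces, if V ⊆ cs τ ∧ S ⊆ τ ∧ G ⊆ τ then
          (-1) ^ (n - τ.card) * (lstarR Z w a G : ℤ) else 0) =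
          (-1) ^ (n - τ.card) * ((∑ G ∈ τ.powerset, lstarR Z w a G : ℕ) : ℤ) := by
        rw [Nat.cast_sum, Finset.mul_sum, ← Finset.sum_filter]
        apply Finset.sum_congr _ (fun _ _ => rfl)
        ext G
        simp only [mem_filter, mem_powerset]
        constructor
        · exact fun h => h.2.2.2
        · intro hG
          refine ⟨?_, hSτ.1, hSτ.2, hG⟩
          rw [Φ.mem_faces]
          exact (Φ.mem_faces.1 hτf).subset Φ hG
      rw [e5, box_sumI h1 h2 Φ hZ hτf hcard hSτ.1 hw a, mul_add]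
      congr 1
      · by_cases hc : ¬ τ ⊆ Z ∧ CondR Z V w a τ
        · rw [if_pos hc, if_pos ⟨hSτ.1, hSτ.2, hc⟩]
        · rw [if_neg hc, if_neg (fun h => hc h.2.2), mul_zero]
      · by_cases hc : τ ⊆ Z ∧ ∃ z : ℤ, a = z
        · rw [if_pos hc, if_pos ⟨hSτ.1, hSτ.2, hc⟩, mul_one]
        · rw [if_neg hc, if_neg (fun h => hc h.2.2), mul_zero]
    · rw [if_neg (fun h => hSτ ⟨h.1, h.2.1⟩), if_neg (fun h => hSτ ⟨h.1, h.2.1⟩), add_zero]
      apply Finset.sum_eq_zero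
      intro G _
      rw [if_neg (fun h => hSτ ⟨h.1, h.2.1⟩)]
  rw [Finset.sum_congr rfl e4, Finset.sum_add_distrib]
  unfold multI
  congr 1
  · unfold multR
    rw [← Finset.sum_filter, Finset.filter_filter]
    apply Finset.sum_congr _ (fun _ _ => rfl)
    ext τ
    simp only [mem_filter]
    tauto
  · rw [← Finset.sum_filter, Finset.filter_filter]
    by_cases ha : ∃ z : ℤ, a = z
    · rw [if_pos ha]
      apply Finset.sum_congr _ (fun _ _ => rfl)
      ext τ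
      simp only [mem_filter]
      constructor
      · rintro ⟨h4, h5, h6, h7⟩
        exact ⟨h4, card_cs_eq (fun u hu => hZ u (h6 hu)), h7, h5, h6, ha⟩
      · rintro ⟨h4, _, h7, h5, h6, _⟩
        exact ⟨h4, h5, h6, h7⟩
    · rw [if_neg ha]
      symm
      apply Finset.sum_eq_zero
      intro τ hτ
      exact absurd (mem_filter.1 hτ).2.2.2.2.2 ha

end It

end Mono
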